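import Mathlib

/-!
# The projection-monoid functor on AW*-algebras is not full

Entrywise complex conjugation is a morphism of Baer *-semigroups from `P(M₂(ℂ))` to itself, where
`P` denotes the multiplicative monoid generated by the projections. It is not the restriction of a
(complex-linear) *-homomorphism.
-/

set_option autoImplicit false

universe u

namespace Pool.Agent.Results.MP_dba3a1_an.ConjugationNotLinear

section Definitions

/-- `e` is the annihilating projection of `S`: a projection with
`{y | x y = 0 for all x ∈ S} = e M`. -/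
def IsRann {M : Type u} [Mul M] [Zero M] [Star M] (S : Set M) (e : M) : Prop :=
  IsStarProjection e ∧ {y : M | ∀ x ∈ S, x * y = 0} = {y : M | ∃ z : M, y = e * z}

/-- AW*-algebras: unital C*-algebras in which the right annihilator of every subset is generated
by a projection. -/
def IsAWStar (A : Type u) [CStarAlgebra A] : Prop :=
  ∀ S : Set A, ∃ e : A, IsRann S e

/-- The multiplicative submonoid `P(A)` generated by the projections of `A`. -/
def P (A : Type u) [CStarAlgebra A] : Submonoid A :=
  Submonoid.closure {p : A | IsStarProjection p}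

variable {A : Type u} [CStarAlgebra A]

lemma star_mem_P {x : A} (hx : x ∈ P A) : star x ∈ P A := by
  unfold P at hx ⊢
  induction hx using Submonoid.closure_induction with
  | mem x hx =>
    rw [hx.isSelfAdjoint.star_eq]
    exact Submonoid.subset_closure hx
  | one => rw [star_one]; exact one_mem _
  | mul x y _ _ hx hy => rw [star_mul]; exact mul_mem hy hx

lemma zero_mem_P : (0 : A) ∈ P A :=
  Submonoid.subset_closure ⟨mul_zero 0, star_zero A⟩

/-- The involution of `P(A)` is that of `A`. -/
instance : Star (P A) := ⟨fun x => ⟨star (x : A), star_mem_P x.2⟩⟩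

/-- The zero of `P(A)` is that of `A`. -/
instance : Zero (P A) := ⟨⟨0, zero_mem_P⟩⟩

/-- Morphisms of Baer *-semigroups: multiplicative maps which respect the involution and preserve
annihilating projections. -/
structure IsBaerHom {M N : Type u} [Mul M] [Zero M] [Star M] [Mul N] [Zero N] [Star N]
    (φ : M → N) : Prop where
  map_mul : ∀ x y, φ (x * y) = φ x * φ y
  map_star : ∀ x, φ (star x) = star (φ x)
  map_rann : ∀ (S : Set M) (e : M), IsRann S e → IsRann (φ '' S) (φ e)

/-- Morphisms of AW*-algebras: *-homomorphisms which preserve annihilating projections. -/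
def IsAWHom {A B : Type u} [CStarAlgebra A] [CStarAlgebra B] (f : A →⋆ₙₐ[ℂ] B) : Prop :=
  ∀ (S : Set A) (e : A), IsRann S e → IsRann (f '' S) (f e)

/-- The functor `P` is full: every morphism of Baer *-semigroups `P(A) → P(B)` is the restriction
of a morphism of AW*-algebras. -/
def PFull : Prop :=
  ∀ (A B : Type u) [CStarAlgebra A] [CStarAlgebra B], IsAWStar A → IsAWStar B →
    ∀ φ : P A → P B, IsBaerHom φ → ∃ f : A →⋆ₙₐ[ℂ] B, IsAWHom f ∧ ∀ x : P A, f x = φ x

end Definitions

/-! ### Bounded operators on a Hilbert space -/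

lemma isAWStar_operators (H : Type u) [NormedAddCommGroup H] [InnerProductSpace ℂ H]
    [CompleteSpace H] : IsAWStar (H →L[ℂ] H) := by
  intro S
  let K : Submodule ℂ H := ⨅ x ∈ S, LinearMap.ker (x : H →ₗ[ℂ] H)
  have hmem : ∀ v : H, v ∈ K ↔ ∀ x ∈ S, x v = 0 := by
    intro v
    simp [K, Submodule.mem_iInf]
  have hclosed : IsClosed (K : Set H) := by
    have : (K : Set H) = ⋂ x ∈ S, {v : H | x v = 0} := by
      ext v
      simp only [SetLike.mem_coe, hmem, Set.mem_iInter, Set.mem_ofPred_eq]
    rw [this]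
    exact isClosed_biInter fun x _ => isClosed_eq x.continuous continuous_const
  have : CompleteSpace K := hclosed.completeSpace_coe
  refine ⟨K.starProjection, isStarProjection_starProjection, ?_⟩
  ext y
  simp only [Set.mem_ofPred_eq]
  constructor
  · intro h
    refine ⟨y, ?_⟩
    ext v
    have hv : y v ∈ K := (hmem _).2 fun x hx => by
      have := congrArg (fun t : H →L[ℂ] H => t v) (h x hx)
      simpa using this
    change y v = K.starProjection (y v)
    exact ((K.starProjection_eq_self_iff).2 hv).symm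
  · rintro ⟨z, rfl⟩ x hx
    ext v
    have := (hmem _).1 (K.starProjection_apply_mem (z v)) x hx
    simpa using this

/-! ### Conjugation -/

/-- The two-dimensional Hilbert space. -/
abbrev H : Type := EuclideanSpace ℂ (Fin 2)

/-- The identification of matrices with operators. -/
noncomputable def T : Matrix (Fin 2) (Fin 2) ℂ ≃⋆ₐ[ℂ] (H →L[ℂ] H) :=
  Matrix.toEuclideanCLM (n := Fin 2) (𝕜 := ℂ)

/-- Entrywise conjugation of matrices. -/
noncomputable def cmat (M : Matrix (Fin 2) (Fin 2) ℂ) : Matrix (Fin 2) (Fin 2) ℂ :=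
  M.map (starRingEnd ℂ)

lemma cmat_mul (M N : Matrix (Fin 2) (Fin 2) ℂ) : cmat (M * N) = cmat M * cmat N := by
  simp [cmat, Matrix.map_mul]

lemma cmat_star (M : Matrix (Fin 2) (Fin 2) ℂ) : cmat (star M) = star (cmat M) := by
  ext i j
  simp [cmat, Matrix.star_apply]

lemma cmat_one : cmat 1 = 1 := by
  simp [cmat]

lemma cmat_zero : cmat 0 = 0 := by
  simp [cmat]

lemma cmat_cmat (M : Matrix (Fin 2) (Fin 2) ℂ) : cmat (cmat M) = M := by
  ext i j
  simp [cmat]

/-- Entrywise conjugation of operators. -/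
noncomputable def conj (x : H →L[ℂ] H) : H →L[ℂ] H := T (cmat (T.symm x))

lemma conj_mul (x y : H →L[ℂ] H) : conj (x * y) = conj x * conj y := by
  simp [conj, map_mul, cmat_mul]

lemma T_star (M : Matrix (Fin 2) (Fin 2) ℂ) : T (star M) = star (T M) := T.map_star' M

lemma T_symm_star (x : H →L[ℂ] H) : T.symm (star x) = star (T.symm x) := by
  have h : T (T.symm (star x)) = T (star (T.symm x)) := by
    rw [T_star, StarAlgEquiv.apply_symm_apply, StarAlgEquiv.apply_symm_apply]
  exact T.injective h

lemma conj_star (x : H →L[ℂ] H) : conj (star x) = star (conj x) := by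
  unfold conj
  rw [T_symm_star, cmat_star, T_star]

lemma conj_one : conj 1 = 1 := by
  simp only [conj, map_one, cmat_one]

lemma conj_zero : conj 0 = 0 := by
  simp only [conj, map_zero, cmat_zero]

lemma conj_conj (x : H →L[ℂ] H) : conj (conj x) = x := by
  simp [conj, cmat_cmat]

lemma conj_isStarProjection {x : H →L[ℂ] H} (hx : IsStarProjection x) :
    IsStarProjection (conj x) := by
  refine ⟨?_, ?_⟩
  · have := hx.isIdempotentElem
    rw [IsIdempotentElem] at this ⊢
    rw [← conj_mul, this]
  · have := hx.isSelfAdjoint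
    rw [IsSelfAdjoint] at this ⊢
    rw [← conj_star, this]

lemma conj_mem {x : H →L[ℂ] H} (hx : x ∈ P (H →L[ℂ] H)) : conj x ∈ P (H →L[ℂ] H) := by
  unfold P at hx ⊢
  induction hx using Submonoid.closure_induction with
  | mem x hx => exact Submonoid.subset_closure (conj_isStarProjection hx)
  | one => rw [conj_one]; exact one_mem _
  | mul x y _ _ hx hy => rw [conj_mul]; exact mul_mem hx hy

/-- The morphism of Baer *-semigroups. -/
noncomputable def φ (x : P (H →L[ℂ] H)) : P (H →L[ℂ] H) := ⟨conj x, conj_mem x.2⟩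

lemma φ_φ (x : P (H →L[ℂ] H)) : φ (φ x) = x := Subtype.ext (conj_conj _)

lemma φ_mul (x y : P (H →L[ℂ] H)) : φ (x * y) = φ x * φ y := Subtype.ext (conj_mul _ _)

lemma φ_star (x : P (H →L[ℂ] H)) : φ (star x) = star (φ x) := Subtype.ext (conj_star _)

lemma φ_zero : φ 0 = 0 := Subtype.ext conj_zero

lemma isBaerHom_φ : IsBaerHom φ := by
  refine ⟨φ_mul, φ_star, ?_⟩
  rintro S e ⟨he, hS⟩
  refine ⟨⟨?_, ?_⟩, ?_⟩
  · have := he.isIdempotentElem
    rw [IsIdempotentElem] at this ⊢
    rw [← φ_mul, this]
  · have := he.isSelfAdjoint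
    rw [IsSelfAdjoint] at this ⊢
    rw [← φ_star, this]
  · ext y
    have h1 : (y ∈ {y | ∀ x ∈ φ '' S, x * y = 0}) ↔ φ y ∈ {y | ∀ x ∈ S, x * y = 0} := by
      simp only [Set.mem_ofPred_eq, Set.forall_mem_image]
      refine forall₂_congr fun x _ => ?_
      constructor
      · intro h
        have := congrArg φ h
        rwa [φ_mul, φ_φ, φ_zero] at this
      · intro h
        have := congrArg φ h
        rwa [φ_mul, φ_φ, φ_zero] at this
    have h2 : (y ∈ {y | ∃ z, y = φ e * z}) ↔ φ y ∈ {y | ∃ z, y = e * z} := by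
      simp only [Set.mem_ofPred_eq]
      constructor
      · rintro ⟨z, rfl⟩
        exact ⟨φ z, by rw [φ_mul, φ_φ]⟩
      · rintro ⟨z, hz⟩
        exact ⟨φ z, by rw [← φ_mul, ← hz, φ_φ]⟩
    rw [h1, h2, hS]

/-! ### It is not the restriction of a *-homomorphism -/

/-- A matrix which is a projection. -/
lemma isStarProjection_T {M : Matrix (Fin 2) (Fin 2) ℂ} (h1 : M * M = M) (h2 : star M = M) :
    IsStarProjection (T M) := by
  refine ⟨?_, ?_⟩
  · rw [IsIdempotentElem, ← map_mul, h1]
  · rw [IsSelfAdjoint, ← T_star, h2]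

lemma mem_P_T {M : Matrix (Fin 2) (Fin 2) ℂ} (h1 : M * M = M) (h2 : star M = M) :
    T M ∈ P (H →L[ℂ] H) :=
  Submonoid.subset_closure (isStarProjection_T h1 h2)

/-- A linear multiplicative map fixing `1`, `p`, `q` fixes `(1/2) 1 + I (q p - p q)`. -/
lemma fixes (f : (H →L[ℂ] H) →⋆ₙₐ[ℂ] (H →L[ℂ] H)) (p q c : Matrix (Fin 2) (Fin 2) ℂ)
    (hp : f (T p) = T p) (hq : f (T q) = T q) (h1 : f (T 1) = T 1)
    (e : c = (1 / 2 : ℂ) • (1 : Matrix (Fin 2) (Fin 2) ℂ) + Complex.I • (q * p - p * q)) :
    f (T c) = T c := by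
  have hT : T c = (1 / 2 : ℂ) • T 1 + Complex.I • (T q * T p - T p * T q) := by
    rw [e, map_add, map_smul, map_smul, map_sub, map_mul, map_mul]
  rw [hT, map_add, map_smul, map_smul, map_sub, map_mul, map_mul, hp, hq, h1]

open Complex in
lemma no_extension (f : (H →L[ℂ] H) →⋆ₙₐ[ℂ] (H →L[ℂ] H)) :
    ¬ ∀ x : P (H →L[ℂ] H), f x = φ x := by
  intro h
  have key : ∀ M : Matrix (Fin 2) (Fin 2) ℂ, M * M = M → star M = M → f (T M) = T (cmat M) := by
    intro M h1 h2
    have := h ⟨T M, mem_P_T h1 h2⟩
    simpa [φ, conj] using this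
  let p : Matrix (Fin 2) (Fin 2) ℂ := !![1, 0; 0, 0]
  let q : Matrix (Fin 2) (Fin 2) ℂ := !![2⁻¹, 2⁻¹; 2⁻¹, 2⁻¹]
  let c : Matrix (Fin 2) (Fin 2) ℂ := !![2⁻¹, -(I * 2⁻¹); I * 2⁻¹, 2⁻¹]
  have h22 : (starRingEnd ℂ) 2 = 2 := map_ofNat _ 2
  have hp : f (T p) = T p := by
    rw [key p (by ext i j; fin_cases i <;> fin_cases j <;> simp [p, Matrix.mul_apply])
      (by ext i j; fin_cases i <;> fin_cases j <;> simp [p, Matrix.star_apply])]
    congr 1
    ext i j
    fin_cases i <;> fin_cases j <;> simp [p, cmat]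
  have hq : f (T q) = T q := by
    rw [key q (by ext i j; fin_cases i <;> fin_cases j <;> simp [q, Matrix.mul_apply] <;> norm_num)
      (by ext i j; fin_cases i <;> fin_cases j <;> simp [q, Matrix.star_apply])]
    congr 1
    ext i j
    fin_cases i <;> fin_cases j <;> simp [q, cmat, h22]
  have h1 : f (T 1) = T 1 := by
    rw [key 1 (mul_one _) (star_one _), cmat_one]
  have hII : I * I = -1 := I_mul_I
  have hc : f (T c) = T (cmat c) := key c
    (by
      ext i j
      fin_cases i <;> fin_cases j <;> simp [c, Matrix.mul_apply] <;>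
        first
          | linear_combination (-(1 / 4) : ℂ) * hII
          | linear_combination (0 : ℂ) * hII)
    (by ext i j; fin_cases i <;> fin_cases j <;> simp [c, Matrix.star_apply])
  have e : c = (1 / 2 : ℂ) • (1 : Matrix (Fin 2) (Fin 2) ℂ) + I • (q * p - p * q) := by
    ext i j
    fin_cases i <;> fin_cases j <;> simp [c, p, q]
  have hc' : f (T c) = T c := fixes f p q c hp hq h1 e
  rw [hc] at hc'
  have h2 := T.injective hc'
  have h3 := congrFun (congrFun h2 0) 1
  simp [c, cmat, h22] at h3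
  have h4 := congrArg Complex.im h3
  simp at h4
  norm_num at h4

/-- **Negative answer to Q1**: the functor `P` is not full. -/
theorem result : ¬ PFull.{0} := by
  intro h
  obtain ⟨f, -, hf⟩ := h (H →L[ℂ] H) (H →L[ℂ] H) (isAWStar_operators H) (isAWStar_operators H) φ
    isBaerHom_φ
  exact no_extension f hf

end Pool.Agent.Results.MP_dba3a1_an.ConjugationNotLinear
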